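import Mathlib

/-!
# A compact set which is strictly star-shaped about an interior point is a closed ball
-/

set_option autoImplicit false

open Set Metric Topology

namespace Pool.Agent.VES

variable {E : Type*} [NormedAddCommGroup E] [NormedSpace ℝ E]

/-- the radial function of `K` in direction `u` -/
noncomputable def rad (K : Set E) (u : E) : ℝ := sSup {r : ℝ | 0 ≤ r ∧ r • u ∈ K}

theorem rad_bdd {K : Set E} (hK : IsCompact K) {u : E} (hu : ‖u‖ = 1) :
    BddAbove {r : ℝ | 0 ≤ r ∧ r • u ∈ K} := by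
  obtain ⟨C, hC⟩ := hK.isBounded.exists_norm_le
  refine ⟨C, ?_⟩
  rintro r ⟨hr0, hr⟩
  have := hC _ hr
  rw [norm_smul, hu, mul_one, Real.norm_eq_abs, abs_of_nonneg hr0] at this
  exact this

theorem rad_mem {K : Set E} (hK : IsCompact K) (h0 : (0 : E) ∈ K) {u : E} (hu : ‖u‖ = 1) :
    rad K u ∈ {r : ℝ | 0 ≤ r ∧ r • u ∈ K} := by
  have hcl : IsClosed {r : ℝ | 0 ≤ r ∧ r • u ∈ K} := by
    apply IsClosed.inter (isClosed_le continuous_const continuous_id)
    exact hK.isClosed.preimage (continuous_id.smul continuous_const)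
  exact hcl.csSup_mem ⟨0, le_rfl, by simpa using h0⟩ (rad_bdd hK hu)

theorem le_rad {K : Set E} (hK : IsCompact K) {u : E} (hu : ‖u‖ = 1) {r : ℝ} (hr : 0 ≤ r)
    (h : r • u ∈ K) : r ≤ rad K u :=
  le_csSup (rad_bdd hK hu) ⟨hr, h⟩

/-- on the unit sphere membership is decided by the radial function -/
theorem mem_iff_rad {K : Set E} (hK : IsCompact K) (h0 : (0 : E) ∈ interior K)
    (hs : ∀ x ∈ K, ∀ t : ℝ, 0 ≤ t → t < 1 → t • x ∈ interior K) {u : E} (hu : ‖u‖ = 1)
    {r : ℝ} (hr : 0 ≤ r) : r • u ∈ K ↔ r ≤ rad K u := by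
  constructor
  · exact le_rad hK hu hr
  · intro h
    have h1 := rad_mem hK (interior_subset h0) hu
    rcases eq_or_lt_of_le h with h2 | h2
    · rw [h2]
      exact h1.2
    · have hpos : 0 < rad K u := lt_of_le_of_lt hr h2
      have h3 := hs _ h1.2 (r / rad K u) (by positivity) ((div_lt_one hpos).mpr h2)
      rw [smul_smul, div_mul_cancel₀ _ hpos.ne'] at h3
      exact interior_subset h3

theorem rad_pos {K : Set E} (hK : IsCompact K) (h0 : (0 : E) ∈ interior K) {u : E}
    (hu : ‖u‖ = 1) : 0 < rad K u := by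
  rw [mem_interior_iff_mem_nhds, Metric.mem_nhds_iff] at h0
  obtain ⟨ε, hε, hb⟩ := h0
  have h1 : (ε / 2) • u ∈ K := by
    apply hb
    rw [mem_ball_zero_iff, norm_smul, hu, mul_one, Real.norm_eq_abs, abs_of_pos (by positivity)]
    linarith
  have := le_rad hK hu (by positivity) h1
  linarith

theorem rad_continuousOn {K : Set E} (hK : IsCompact K) (h0 : (0 : E) ∈ interior K)
    (hs : ∀ x ∈ K, ∀ t : ℝ, 0 ≤ t → t < 1 → t • x ∈ interior K) :
    ContinuousOn (rad K) (sphere (0 : E) 1) := by
  intro u hu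
  have hu1 : ‖u‖ = 1 := by simpa using hu
  have hpos := rad_pos hK h0 hu1
  have hmem := rad_mem hK (interior_subset h0) hu1
  rw [ContinuousWithinAt, tendsto_order]
  constructor
  · intro r hr
    set r' := max ((r + rad K u) / 2) (rad K u / 2) with hr'
    have h1 : r < r' := lt_of_lt_of_le (by linarith) (le_max_left _ _)
    have h2 : 0 < r' := lt_of_lt_of_le (by linarith) (le_max_right _ _)
    have h3 : r' < rad K u := max_lt (by linarith) (by linarith)
    have h4 : r' • u ∈ interior K := by
      have h5 := hs _ hmem.2 (r' / rad K u) (by positivity) ((div_lt_one hpos).mpr h3)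
      rwa [smul_smul, div_mul_cancel₀ _ hpos.ne'] at h5
    have h6 : ∀ᶠ v in 𝓝 u, r' • v ∈ interior K :=
      (continuous_const.smul continuous_id).continuousAt.eventually
        (isOpen_interior.mem_nhds h4)
    have h7 : ∀ᶠ v in 𝓝[sphere (0 : E) 1] u, r' • v ∈ interior K := h6.filter_mono nhdsWithin_le_nhds
    filter_upwards [h7, self_mem_nhdsWithin] with v hv hv1
    have hv2 : ‖v‖ = 1 := by simpa using hv1
    exact lt_of_lt_of_le h1 (le_rad hK hv2 h2.le (interior_subset hv))
  · intro r hr
    have h1 : r • u ∉ K := by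
      intro h
      have := le_rad hK hu1 (by linarith : 0 ≤ r) h
      linarith
    have h6 : ∀ᶠ v in 𝓝 u, r • v ∈ Kᶜ :=
      (continuous_const.smul continuous_id).continuousAt.eventually
        (hK.isClosed.isOpen_compl.mem_nhds h1)
    have h7 : ∀ᶠ v in 𝓝[sphere (0 : E) 1] u, r • v ∈ Kᶜ := h6.filter_mono nhdsWithin_le_nhds
    filter_upwards [h7, self_mem_nhdsWithin] with v hv hv1
    have hv2 : ‖v‖ = 1 := by simpa using hv1
    by_contra hc
    push Not at hc
    exact hv ((mem_iff_rad hK h0 hs hv2 (by linarith : 0 ≤ r)).mpr hc)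

/-- the radial map of the ball onto `K` -/
noncomputable def rmap (K : Set E) (x : E) : E := rad K (‖x‖⁻¹ • x) • x

theorem unit_norm {x : E} (hx : x ≠ 0) : ‖‖x‖⁻¹ • x‖ = 1 := by
  rw [norm_smul, norm_inv, norm_norm, inv_mul_cancel₀ (norm_ne_zero_iff.mpr hx)]

theorem rmap_continuous {K : Set E} (hK : IsCompact K) (h0 : (0 : E) ∈ interior K)
    (hs : ∀ x ∈ K, ∀ t : ℝ, 0 ≤ t → t < 1 → t • x ∈ interior K) : Continuous (rmap K) := by
  obtain ⟨C, hC⟩ := hK.isBounded.exists_norm_le
  have hradC : ∀ u : E, ‖u‖ = 1 → |rad K u| ≤ C := by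
    intro u hu
    have h1 := rad_mem hK (interior_subset h0) hu
    have h2 := hC _ h1.2
    rwa [norm_smul, hu, mul_one, Real.norm_eq_abs] at h2
  rw [continuous_iff_continuousAt]
  intro x
  by_cases hx : x = 0
  · subst hx
    have h1 : rmap K (0 : E) = 0 := by simp [rmap]
    rw [ContinuousAt, h1, tendsto_zero_iff_norm_tendsto_zero]
    have h2 : ∀ y : E, ‖rmap K y‖ ≤ |C| * ‖y‖ := by
      intro y
      by_cases hy : y = 0
      · subst hy
        rw [h1]
        simp
      · unfold rmap
        rw [norm_smul, Real.norm_eq_abs]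
        apply mul_le_mul_of_nonneg_right _ (norm_nonneg _)
        exact (hradC _ (unit_norm hy)).trans (le_abs_self C)
    have h3 : Filter.Tendsto (fun y : E => |C| * ‖y‖) (𝓝 0) (𝓝 0) := by
      have : Continuous (fun y : E => |C| * ‖y‖) := continuous_const.mul continuous_norm
      have h4 := this.tendsto (0 : E)
      simpa using h4
    exact squeeze_zero (fun y => norm_nonneg _) h2 h3
  · have h1 : ContinuousAt (fun y : E => ‖y‖⁻¹ • y) x := by
      apply ContinuousAt.smul _ continuousAt_id
      exact continuousAt_id.norm.inv₀ (norm_ne_zero_iff.mpr hx)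
    have h2 : ContinuousAt (fun y : E => rad K (‖y‖⁻¹ • y)) x := by
      have h3 : ContinuousWithinAt (rad K) (sphere (0 : E) 1) (‖x‖⁻¹ • x) :=
        rad_continuousOn hK h0 hs _ (by simp [norm_smul, hx])
      have h4 : Filter.Tendsto (fun y : E => ‖y‖⁻¹ • y) (𝓝 x)
          (𝓝[sphere (0 : E) 1] (‖x‖⁻¹ • x)) := by
        rw [tendsto_nhdsWithin_iff]
        refine ⟨h1, ?_⟩
        filter_upwards [isOpen_ne.mem_nhds hx] with y hy
        simpa using unit_norm hy
      exact h3.tendsto.comp h4
    exact h2.smul continuousAt_id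

theorem star_disc (K : Set E) (hK : IsCompact K) (h0 : (0 : E) ∈ interior K)
    (hs : ∀ x ∈ K, ∀ t : ℝ, 0 ≤ t → t < 1 → t • x ∈ interior K) :
    Nonempty (K ≃ₜ Metric.closedBall (0 : E) 1) := by
  classical
  have hc := rmap_continuous hK h0 hs
  -- membership
  have hmaps : ∀ x : E, ‖x‖ ≤ 1 → rmap K x ∈ K := by
    intro x hx
    by_cases hx0 : x = 0
    · subst hx0
      have : rmap K (0 : E) = 0 := by simp [rmap]
      rw [this]
      exact interior_subset h0
    · have hu := unit_norm hx0
      have hpos := rad_pos hK h0 hu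
      have hn : 0 < ‖x‖ := norm_pos_iff.mpr hx0
      have h1 : rmap K x = (rad K (‖x‖⁻¹ • x) * ‖x‖) • (‖x‖⁻¹ • x) := by
        unfold rmap
        rw [smul_smul, mul_assoc, mul_inv_cancel₀ hn.ne', mul_one]
      rw [h1, mem_iff_rad hK h0 hs hu (by positivity)]
      nlinarith
  -- injectivity and surjectivity by the explicit inverse
  have hunit : ∀ (x : E) (c : ℝ), x ≠ 0 → 0 < c → ‖c • x‖⁻¹ • (c • x) = ‖x‖⁻¹ • x := by
    intro x c hx hc
    rw [norm_smul, Real.norm_eq_abs, abs_of_pos hc, smul_smul]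
    congr 1
    have hn : 0 < ‖x‖ := norm_pos_iff.mpr hx
    field_simp
  have hinj : ∀ x y : E, rmap K x = rmap K y → x = y := by
    intro x y hxy
    by_cases hx0 : x = 0
    · subst hx0
      by_contra hy0
      have hy0' : y ≠ 0 := fun h => hy0 h.symm
      have h1 : rmap K (0 : E) = 0 := by simp [rmap]
      rw [h1] at hxy
      unfold rmap at hxy
      have hpos := rad_pos hK h0 (unit_norm hy0')
      rcases smul_eq_zero.mp hxy.symm with h | h
      · exact hpos.ne' h
      · exact hy0' h
    · by_cases hy0 : y = 0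
      · subst hy0
        have h1 : rmap K (0 : E) = 0 := by simp [rmap]
        rw [h1] at hxy
        unfold rmap at hxy
        have hpos := rad_pos hK h0 (unit_norm hx0)
        rcases smul_eq_zero.mp hxy with h | h
        · exact absurd h hpos.ne'
        · exact h
      · have hpx := rad_pos hK h0 (unit_norm hx0)
        have hpy := rad_pos hK h0 (unit_norm hy0)
        have h1 : ‖x‖⁻¹ • x = ‖y‖⁻¹ • y := by
          have h2 := hunit x _ hx0 hpx
          have h3 := hunit y _ hy0 hpy
          unfold rmap at hxy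
          rw [← h2, ← h3, hxy]
        unfold rmap at hxy
        rw [h1] at hxy
        exact smul_right_injective E hpy.ne' hxy
  have hsurj : ∀ z ∈ K, ∃ x : E, ‖x‖ ≤ 1 ∧ rmap K x = z := by
    intro z hz
    by_cases hz0 : z = 0
    · subst hz0
      exact ⟨0, by simp, by simp [rmap]⟩
    · have hu := unit_norm hz0
      have hpos := rad_pos hK h0 hu
      have hn : 0 < ‖z‖ := norm_pos_iff.mpr hz0
      refine ⟨(rad K (‖z‖⁻¹ • z))⁻¹ • z, ?_, ?_⟩
      · rw [norm_smul, norm_inv, Real.norm_eq_abs, abs_of_pos hpos, inv_mul_le_iff₀ hpos, mul_one]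
        apply le_rad hK hu hn.le
        rw [smul_smul, mul_inv_cancel₀ hn.ne', one_smul]
        exact hz
      · unfold rmap
        rw [hunit z _ hz0 (inv_pos.mpr hpos), smul_smul, mul_inv_cancel₀ hpos.ne', one_smul]
  -- compactness of the ball
  have hinvc : ∀ z ∈ K, ∃! x : E, ‖x‖ ≤ 1 ∧ rmap K x = z := by
    intro z hz
    obtain ⟨x, hx1, hx2⟩ := hsurj z hz
    exact ⟨x, ⟨hx1, hx2⟩, fun y hy => hinj y x (hy.2.trans hx2.symm)⟩
  -- the space is finite dimensional, so the closed ball is compact
  have hfd : IsCompact (closedBall (0 : E) 1) := by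
    obtain ⟨ε, hε, hb⟩ := Metric.mem_nhds_iff.mp (mem_interior_iff_mem_nhds.mp h0)
    have h1 : closedBall (0 : E) (ε / 2) ⊆ K := by
      intro x hx
      apply hb
      rw [mem_closedBall_zero_iff] at hx
      rw [mem_ball_zero_iff]
      linarith
    have h2 : IsCompact (closedBall (0 : E) (ε / 2)) :=
      hK.of_isClosed_subset isClosed_closedBall h1
    have h3 : closedBall (0 : E) 1 = (fun x => (ε / 2)⁻¹ • x) '' closedBall (0 : E) (ε / 2) := by
      ext x
      constructor
      · intro hx
        refine ⟨(ε / 2) • x, ?_, ?_⟩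
        · rw [mem_closedBall_zero_iff] at hx ⊢
          rw [norm_smul, Real.norm_eq_abs, abs_of_pos (by positivity)]
          nlinarith
        · simp only
          rw [smul_smul, inv_mul_cancel₀ (by positivity), one_smul]
      · rintro ⟨y, hy, rfl⟩
        rw [mem_closedBall_zero_iff] at hy ⊢
        simp only
        rw [norm_smul, norm_inv, Real.norm_eq_abs, abs_of_pos (by positivity : 0 < ε / 2),
          inv_mul_le_iff₀ (by positivity), mul_one]
        exact hy
    rw [h3]
    exact h2.image (continuous_const.smul continuous_id)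
  have : CompactSpace (closedBall (0 : E) 1) := isCompact_iff_compactSpace.mp hfd
  let f : closedBall (0 : E) 1 → K := fun x =>
    ⟨rmap K x, hmaps x (mem_closedBall_zero_iff.mp x.2)⟩
  have hfc : Continuous f := (hc.comp continuous_subtype_val).subtype_mk _
  have hfb : Function.Bijective f := by
    constructor
    · intro x y hxy
      apply Subtype.ext
      apply hinj
      exact congrArg Subtype.val hxy
    · rintro ⟨z, hz⟩
      obtain ⟨x, hx1, hx2⟩ := hsurj z hz
      exact ⟨⟨x, mem_closedBall_zero_iff.mpr hx1⟩, Subtype.ext hx2⟩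
  let e : closedBall (0 : E) 1 ≃ K := Equiv.ofBijective f hfb
  exact ⟨(Continuous.homeoOfEquivCompactToT2 (f := e) hfc).symm⟩

end Pool.Agent.VES
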